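import Pool.Agent.Helper4.PQ0.St2
import Pool.Agent.Helper78.PQ0.M_THF

/-!
# Project PQS (MP_2b6189_al), module A2T: the trace in the second case for `a = 2`
-/

set_option autoImplicit false

namespace Pool.Agent.Helper89.PQ0

open Matrix ComplexConjugate Pool.Agent.Helper94.YF Pool.Agent.Helper94.YG
open Pool.Agent.Helper89.OS hiding PD Cx Blk B0 Orb StXA StXB StXC StXE StCGR StISO StBLK StAMG StHEC StSTL StMZZ StDRE StTSU
open Pool.Agent.Helper89.OC hiding Kp Ks gX OB Lk StORB StTS2 StLKD StTAN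
open Pool.Agent.Helper4.PQ0
open Pool.Agent.Helper78.PQ0

/-- A2T -/
theorem hA2T : StA2T := by
  classical
  intro hS hU I _ _ p X Q hB hM hF
  have hp : p.Prime := X.prime
  have hNZ : NeZero (p ^ 2) := ⟨pow_ne_zero _ hp.ne_zero⟩
  have hp0 : (p : ℂ) ≠ 0 := by exact_mod_cast hp.ne_zero
  have hg1 := hF.g1
  have hg0 : (gp X : ℂ) ≠ 0 := by
    have : gp X ≠ 0 := by omega
    exact_mod_cast this
  have hK : ∀ k, k ∈ Kp X ↔ X.y k ≠ 0 ∧ X.t k = 1 ∧ k ≠ X.o := fun k => by simp [Kp]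
  have hself : ∀ k, k ∈ Orb X k := by
    intro k
    simp only [Orb, Finset.mem_filter, Finset.mem_univ, true_and]
    exact ⟨1, X.pi_one k⟩
  have hr0 : ∀ k, ((Orb X k).card : ℂ) ≠ 0 := by
    intro k
    have : 0 < (Orb X k).card := Finset.card_pos.2 ⟨k, hself k⟩
    exact_mod_cast this.ne'
  have hyo : X.y X.o ≠ 0 := by
    intro h
    apply hB.x_nd
    rw [h]
    exact dvd_zero _
  have htp : ∀ k, X.y k ≠ 0 → X.t k ≠ 1 → X.t k ^ p ≠ 1 := fun k h1 h2 h3 => h2 (hF.t1 k h1 h3)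
  -- step 1
  have hneg : ∀ k, X.y k ≠ 0 → X.pi (-1) k = k := by
    intro k hk
    by_cases ht : X.t k = 1
    · by_cases hko : k = X.o
      · rw [hko, X.pi_o]
      · have hkK : k ∈ Kp X := (hK k).2 ⟨hk, ht, hko⟩
        have hreal : ∀ j, X.s j (X.pi (-1) k) = X.s j k := by
          intro j
          rw [← X.conj_s]
          by_cases hj : X.y j = 0
          · rw [X.s_symm j k, hB.sup k j hk hj, map_zero]
          · by_cases hjt : X.t j = 1
            · have h1 := hS I p X Q hB hM hF k hkK j hj hjt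
              have h2 : (gp X : ℂ) * ((Orb X k).card : ℂ) * conj (X.s k j) =
                  (gp X : ℂ) * ((Orb X k).card : ℂ) * X.s k j := by
                have h3 := congrArg (fun c : ℂ => conj c) h1
                simp only [map_mul, map_add, map_neg, Complex.conj_natCast, map_intCast,
                  apply_ite (fun c : ℂ => conj c), map_one, map_zero] at h3
                rw [h3, h1]
              rw [X.s_symm j k]
              exact mul_left_cancel₀ (mul_ne_zero hg0 (hr0 k)) h2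
            · rw [X.s_symm j k, X.conj_s, ]
              rw [neg_one_fix X hM hj (htp j hj hjt)]
        have h1 := X.s_uni k (X.pi (-1) k)
        have h2 := X.s_uni k k
        rw [if_pos rfl] at h2
        have h3 : ∑ l, X.s k l * conj (X.s (X.pi (-1) k) l) = ∑ l, X.s k l * conj (X.s k l) := by
          refine Finset.sum_congr rfl fun l _ => ?_
          rw [X.s_symm (X.pi (-1) k) l, hreal l, X.s_symm l k]
        rw [h3, h2] at h1
        by_contra hne
        rw [if_neg (fun h => hne h.symm)] at h1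
        exact pow_ne_zero 2 hp0 h1
    · exact neg_one_fix X hM hk (htp k hk ht)
  -- step 2
  have hw : ∀ i, ∑ l, X.t l * (X.s i l * X.s l i) = (p : ℂ) * ((X.t i ^ 2)⁻¹ * X.s i i) := by
    intro i
    have h1 := X.weil 1 i i
    have e1 : ∀ l, X.t l ^ (((1 : (ZMod (p ^ 2))ˣ) : ZMod (p ^ 2))).val = X.t l := fun l => by
      rw [Units.val_one]
      exact E_one hp
    have e2 : X.t i ^ (-(((1 : (ZMod (p ^ 2))ˣ)⁻¹ : (ZMod (p ^ 2))ˣ) : ZMod (p ^ 2))).val =
        (X.t i)⁻¹ := by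
      rw [inv_one, Units.val_one]
      have := E_neg (X.t_pow i) 1
      rw [E_one hp] at this
      exact this
    simp only [e1] at h1
    rw [e2, inv_one, X.pi_one] at h1
    rw [h1, sq, mul_inv]
    ring
  have hsum : (∑ i, if X.y i ≠ 0 then ∑ l, X.t l * (X.s i l * X.s l i) else 0) =
      ∑ l, if X.y l ≠ 0 then (p : ℂ) ^ 2 * X.t l else 0 := by
    have e1 : ∀ i, (if X.y i ≠ 0 then ∑ l, X.t l * (X.s i l * X.s l i) else 0) =
        ∑ l, if X.y i ≠ 0 ∧ X.y l ≠ 0 then X.t l * (X.s i l * X.s l i) else 0 := by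
      intro i
      by_cases hi : X.y i = 0
      · rw [if_neg (fun h => h hi)]
        symm
        refine Finset.sum_eq_zero fun l _ => if_neg fun h => h.1 hi
      · rw [if_pos hi]
        refine Finset.sum_congr rfl fun l _ => ?_
        by_cases hl : X.y l = 0
        · rw [if_neg (fun h => h.2 hl), hB.sup i l hi hl]
          ring
        · rw [if_pos ⟨hi, hl⟩]
    rw [Finset.sum_congr rfl fun i _ => e1 i, Finset.sum_comm]
    refine Finset.sum_congr rfl fun l _ => ?_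
    by_cases hl : X.y l = 0
    · rw [if_neg (fun h => h hl)]
      exact Finset.sum_eq_zero fun i _ => if_neg fun h => h.2 hl
    · rw [if_pos hl]
      have h1 := X.weil0 l l
      rw [hneg l hl, if_pos rfl] at h1
      rw [← h1, Finset.sum_mul]
      refine Finset.sum_congr rfl fun i _ => ?_
      by_cases hi : X.y i = 0
      · rw [if_neg (fun h => h.1 hi), hB.sup l i hl hi]
        ring
      · rw [if_pos ⟨hi, hl⟩]
        ring
  -- sums over the parts
  have hpart : ∀ F : I → ℂ, (∑ l, if X.y l ≠ 0 then F l else 0) =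
      F X.o + ∑ k ∈ Kp X, F k + ∑ l, if X.y l ≠ 0 ∧ X.t l ≠ 1 then F l else 0 := by
    intro F
    have e1 : ∀ l, (if X.y l ≠ 0 then F l else 0) = (if l = X.o then F l else 0) +
        (if l ∈ Kp X then F l else 0) + (if X.y l ≠ 0 ∧ X.t l ≠ 1 then F l else 0) := by
      intro l
      by_cases hlo : l = X.o
      · have h1 : X.y l ≠ 0 := by rw [hlo]; exact hyo
        have h2 : ¬ (X.y l ≠ 0 ∧ X.t l ≠ 1) := fun h => h.2 (by rw [hlo, X.t_o])
        rw [if_pos h1, if_pos hlo, if_neg (fun h => ((hK l).1 h).2.2 hlo), if_neg h2]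
        ring
      · rw [if_neg hlo]
        by_cases hl : X.y l = 0
        · rw [if_neg (fun h => h hl), if_neg (fun h => ((hK l).1 h).1 hl), if_neg (fun h => h.1 hl)]
          ring
        · rw [if_pos hl]
          by_cases hlt : X.t l = 1
          · rw [if_pos ((hK l).2 ⟨hl, hlt, hlo⟩), if_neg (fun h => h.2 hlt)]
            ring
          · rw [if_neg (fun h => hlt ((hK l).1 h).2.1), if_pos ⟨hl, hlt⟩]
            ring
    rw [Finset.sum_congr rfl fun l _ => e1 l, Finset.sum_add_distrib, Finset.sum_add_distrib,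
      Finset.sum_ite_eq' Finset.univ X.o, if_pos (Finset.mem_univ _), Finset.sum_ite_mem,
      Finset.univ_inter]
  obtain ⟨hU1, hU2⟩ := hU I p X Q hB hM hF
  -- left side
  have hL : (∑ l, if X.y l ≠ 0 then (p : ℂ) ^ 2 * X.t l else 0) =
      (p : ℂ) ^ 2 * (((Kp X).card : ℂ) + 1) := by
    rw [hpart]
    have e1 : ∑ k ∈ Kp X, (p : ℂ) ^ 2 * X.t k = (p : ℂ) ^ 2 * ((Kp X).card : ℂ) := by
      rw [Finset.sum_congr rfl fun k hk => by rw [((hK k).1 hk).2.1, mul_one], Finset.sum_const,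
        nsmul_eq_mul, mul_comm]
    have e2 : (∑ l, if X.y l ≠ 0 ∧ X.t l ≠ 1 then (p : ℂ) ^ 2 * X.t l else 0) = 0 := by
      have : ∀ l, (if X.y l ≠ 0 ∧ X.t l ≠ 1 then (p : ℂ) ^ 2 * X.t l else 0) =
          (p : ℂ) ^ 2 * (if X.y l ≠ 0 ∧ X.t l ≠ 1 then X.t l else 0) := fun l => by
        split_ifs <;> ring
      rw [Finset.sum_congr rfl fun l _ => this l, ← Finset.mul_sum, hU2, mul_zero]
    rw [e1, e2, X.t_o]
    ring
  -- right side
  have hskk : ∀ k ∈ Kp X, X.s k k = (p : ℂ) * (1 / ((Orb X k).card : ℂ)) -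
      (X.y k : ℂ) ^ 2 / (gp X : ℂ) := by
    intro k hk
    have hk' := (hK k).1 hk
    have h1 := hS I p X Q hB hM hF k hk k hk'.1 hk'.2.1
    rw [if_pos (hself k), if_neg hk'.2.2] at h1
    have hr := hr0 k
    field_simp
    linear_combination h1
  have hx : (X.y X.o : ℂ) = (gp X : ℂ) + 1 := by
    have h1 := hF.x
    have h2 : X.y X.o = gp X + 1 := by
      unfold gp
      linarith
    rw [h2]
    push_cast
    ring
  have hsq : ∑ k ∈ Kp X, (X.y k : ℂ) ^ 2 = (gp X : ℂ) * ((gp X : ℂ) + 1) := by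
    have := congrArg (fun z : ℤ => (z : ℂ)) hF.sq
    simp only [Int.cast_sum, Int.cast_pow, Int.cast_mul, Int.cast_add, Int.cast_one] at this
    exact this
  have hR : (∑ i, if X.y i ≠ 0 then (p : ℂ) * ((X.t i ^ 2)⁻¹ * X.s i i) else 0) =
      (p : ℂ) ^ 2 * ((∑ k ∈ Kp X, 1 / ((Orb X k).card : ℂ)) + (gp X : ℂ)) := by
    rw [hpart]
    have e1 : ∑ k ∈ Kp X, (p : ℂ) * ((X.t k ^ 2)⁻¹ * X.s k k) =
        (p : ℂ) * ((p : ℂ) * (∑ k ∈ Kp X, 1 / ((Orb X k).card : ℂ)) - ((gp X : ℂ) + 1)) := by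
      have h1 : ∀ k ∈ Kp X, (p : ℂ) * ((X.t k ^ 2)⁻¹ * X.s k k) =
          (p : ℂ) * ((p : ℂ) * (1 / ((Orb X k).card : ℂ))) -
          (p : ℂ) / (gp X : ℂ) * (X.y k : ℂ) ^ 2 := by
        intro k hk
        rw [((hK k).1 hk).2.1, hskk k hk]
        ring
      rw [Finset.sum_congr rfl h1, Finset.sum_sub_distrib, ← Finset.mul_sum, ← Finset.mul_sum,
        ← Finset.mul_sum, hsq]
      field_simp
    have e2 : (∑ l, if X.y l ≠ 0 ∧ X.t l ≠ 1 then (p : ℂ) * ((X.t l ^ 2)⁻¹ * X.s l l) else 0) =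
        (p : ℂ) * ((p : ℂ) * (gp X : ℂ)) := by
      have : ∀ l, (if X.y l ≠ 0 ∧ X.t l ≠ 1 then (p : ℂ) * ((X.t l ^ 2)⁻¹ * X.s l l) else 0) =
          (p : ℂ) * (if X.y l ≠ 0 ∧ X.t l ≠ 1 then (X.t l ^ 2)⁻¹ * X.s l l else 0) := fun l => by
        split_ifs <;> ring
      rw [Finset.sum_congr rfl fun l _ => this l, ← Finset.mul_sum, hU1]
    rw [e1, e2, X.t_o, X.s_o, hx]
    ring
  have hfin : (p : ℂ) ^ 2 * (((Kp X).card : ℂ) + 1) =
      (p : ℂ) ^ 2 * ((∑ k ∈ Kp X, 1 / ((Orb X k).card : ℂ)) + (gp X : ℂ)) := by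
    rw [← hL, ← hR, ← hsum]
    refine Finset.sum_congr rfl fun i _ => ?_
    by_cases hi : X.y i = 0
    · rw [if_neg (fun h => h hi), if_neg (fun h => h hi)]
    · rw [if_pos hi, if_pos hi, hw i]
  have hfin2 := mul_left_cancel₀ (pow_ne_zero 2 hp0) hfin
  have hfin3 : ((((Kp X).card : ℚ) + 1 : ℚ) : ℂ) =
      (((∑ k ∈ Kp X, 1 / ((Orb X k).card : ℚ)) + gp X : ℚ) : ℂ) := by
    push_cast
    exact hfin2
  exact_mod_cast hfin3

end Pool.Agent.Helper89.PQ0
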