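import Pool.Agent.Helper52.PN.Num

/-! # MP_2b6189_al: the numbers of a ghost prime, the whole tuple -/

set_option autoImplicit false

namespace Pool.Agent.Helper89.PQ0

open Pool.Agent.Helper52.PN

/-- The tuple of numbers of a ghost prime `p`, `n = p m`, `p = 1 + N g`. -/
def Tup (p m N A : ℕ) : Prop :=
  ∃ (g : ℕ) (y : ℤ) (e k : ℕ) (w : Fin k → ℤ) (d : Fin k → ℕ), p = 1 + N * g ∧
    y ^ 2 + g * ∑ i, w i ^ 2 = p - g ∧ y * e + ∑ i, w i * (d i : ℤ) = 1 ∧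
    1 < e ∧ e ∣ m ∧ (e : ℤ) ∣ A * y ∧ (p : ℤ) ∣ e - N * y ∧
    (∀ i, w i ≠ 0 ∧ 1 < d i ∧ d i ∣ m ∧ (d i : ℤ) ∣ A * w i ∧ (p : ℤ) ∣ d i + w i ∧
      p < 2 * Nat.gcd (d i) e) ∧
    ∀ i j, i ≠ j → p < 2 * Nat.gcd (d i) (d j)

variable {ι : Type} {p m N g : ℕ} {D : ℤ} {S : Finset ι} {w : ι → ℤ} {d : ι → ℕ} {yW : ℤ}
  {dW : ℕ}

theorem natAbs_dvd_mul {D x y : ℤ} (h : x ∣ D * y) : x ∣ (D.natAbs : ℤ) * y := by
  rcases Int.natAbs_eq D with h1 | h1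
  · rwa [← h1]
  · have h2 : (D.natAbs : ℤ) * y = -(D * y) := by
      nth_rw 2 [h1]
      ring
    rw [h2]
    exact (dvd_neg).2 h

/-- the properties of the elements of `S` -/
theorem Gm.el (h : Gm p m N D S w d) {v : ι} (hv : v ∈ S) :
    w v ≠ 0 ∧ 1 < d v ∧ d v ∣ m ∧ (d v : ℤ) ∣ (D.natAbs : ℤ) * w v ∧ (p : ℤ) ∣ d v + w v := by
  refine ⟨h.w0 v hv, h.d1 v hv, h.dm v hv, ?_, h.F v hv⟩
  apply natAbs_dvd_mul
  obtain ⟨k, hk⟩ := h.om v hv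
  exact ⟨p * k - N, by rw [← hk]; ring⟩

/-- the passage from a finite set to `Fin k` -/
theorem tup_of_set {A : ℕ} (T : Finset ι) (e : ℕ) (y : ℤ) (hp : p = 1 + N * g)
    (hsq : y ^ 2 + g * ∑ v ∈ T, w v ^ 2 = p - g) (hdim : y * e + ∑ v ∈ T, w v * (d v : ℤ) = 1)
    (he : 1 < e) (hem : e ∣ m) (heA : (e : ℤ) ∣ A * y) (hec : (p : ℤ) ∣ e - N * y)
    (hT : ∀ v ∈ T, w v ≠ 0 ∧ 1 < d v ∧ d v ∣ m ∧ (d v : ℤ) ∣ A * w v ∧ (p : ℤ) ∣ d v + w v ∧
      p < 2 * Nat.gcd (d v) e)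
    (hTT : ∀ v ∈ T, ∀ v' ∈ T, v ≠ v' → p < 2 * Nat.gcd (d v) (d v')) : Tup p m N A := by
  classical
  set φ := T.equivFin with hφ
  have hsum : ∀ F : ι → ℤ, ∑ i : Fin T.card, F ((φ.symm i : T) : ι) = ∑ v ∈ T, F v := by
    intro F
    rw [Equiv.sum_comp φ.symm (fun v : T => F (v : ι)), Finset.sum_coe_sort T F]
  refine ⟨g, y, e, T.card, fun i => w (φ.symm i : T), fun i => d (φ.symm i : T), hp, ?_, ?_, he,
    hem, heA, hec, ?_, ?_⟩
  · rw [hsum fun v => w v ^ 2]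
    exact hsq
  · rw [hsum fun v => w v * (d v : ℤ)]
    exact hdim
  · intro i
    exact hT _ (φ.symm i).2
  · intro i j hij
    refine hTT _ (φ.symm i).2 _ (φ.symm j).2 fun h => hij ?_
    exact φ.symm.injective (Subtype.ext h)

/-- the congruence of `d W` -/
theorem cong_W (h : Gm2 p m N g D S w d yW dW) : (p : ℤ) ∣ dW - N * yW := by
  have hpp : Prime (p : ℤ) := Nat.prime_iff_prime_int.1 h.prime
  have hpN : (p : ℤ) = 1 + N * g := by exact_mod_cast h.pN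
  have hg : (2 : ℤ) ≤ g := by exact_mod_cast h.g2
  have h1 := h.sq
  have h2 := h.dim
  -- `∑ w d ≡ - ∑ w ^ 2`
  obtain ⟨r, hr⟩ : (p : ℤ) ∣ ∑ v ∈ S, w v * (d v : ℤ) + ∑ v ∈ S, w v ^ 2 := by
    rw [← Finset.sum_add_distrib]
    refine Finset.dvd_sum fun v hv => ?_
    have h3 : w v * (d v : ℤ) + w v ^ 2 = w v * (d v + w v) := by ring
    rw [h3]
    exact Dvd.dvd.mul_left (h.F v hv) _
  have h3 : (p : ℤ) ∣ yW * (dW - N * yW) := by
    obtain ⟨s, hs⟩ : ∃ s, s = ∑ v ∈ S, w v ^ 2 := ⟨_, rfl⟩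
    obtain ⟨q, hq⟩ : ∃ q, q = ∑ v ∈ S, w v * (d v : ℤ) := ⟨_, rfl⟩
    rw [← hs] at h1
    rw [← hq] at h2
    rw [← hs, ← hq] at hr
    -- `yW dW = 1 - q = 1 + s - p r`; `N yW ^ 2 = N (p - g - g s) = N p - (p - 1) (1 + s)`
    refine ⟨-r - N + (1 + s), ?_⟩
    have h4 : yW * dW = 1 + s - p * r := by linarith
    have h5 : N * yW ^ 2 = N * p - (p - 1) * (1 + s) := by
      have h6 : yW ^ 2 = p - g - g * s := by linarith
      have h7 : (N : ℤ) * g = p - 1 := by linarith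
      rw [h6]
      linear_combination (-(1 + s)) * h7
    linear_combination h4 - h5
  rcases hpp.dvd_or_dvd h3 with h4 | h4
  · exfalso
    have hy0 : yW ≠ 0 := by
      rintro rfl
      have h5 : (g : ℤ) ∣ 1 := ⟨∑ v ∈ S, w v ^ 2 + 1 - N, by
        rw [hpN] at h1
        linear_combination (-1 : ℤ) * h1⟩
      have := Int.le_of_dvd one_pos h5
      omega
    have h5 : (p : ℤ) ^ 2 ≤ yW ^ 2 := by
      have h6 : (0 : ℤ) < yW ^ 2 := by positivity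
      exact Int.le_of_dvd h6 (pow_dvd_pow_of_dvd h4 2)
    have h6 : 0 ≤ ∑ v ∈ S, w v ^ 2 := Finset.sum_nonneg fun v _ => sq_nonneg _
    have hp2 : (2 : ℤ) ≤ p := by exact_mod_cast h.prime.two_le
    nlinarith
  · exact h4

/-- **Theorem.**  The tuple, `g ≥ 2`. -/
theorem Gm2.tup (h : Gm2 p m N g D S w d yW dW) (hW : (dW : ℤ) ∣ D * yW) :
    Tup p m N D.natAbs := by
  refine tup_of_set S dW yW h.pN h.sq h.dim h.dW1 h.dWm (natAbs_dvd_mul hW) (cong_W h) ?_ h.gcd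
  intro v hv
  obtain ⟨h1, h2, h3, h4, h5⟩ := Gm.el h.toGm hv
  exact ⟨h1, h2, h3, h4, h5, h.gcdW v hv⟩

/-- **Theorem.**  The tuple, `g = 1`. -/
theorem Gm1.tup (h : Gm1 p m N D S w d) : Tup p m N D.natAbs := by
  classical
  have hpN : (p : ℤ) = 1 + N := by exact_mod_cast h.pN
  have hne : S.Nonempty := by
    rw [Finset.nonempty_iff_ne_empty]
    rintro rfl
    have h1 := h.dim
    rw [Finset.sum_empty] at h1
    exact absurd h1 (by norm_num)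
  obtain ⟨v0, hv0⟩ := hne
  obtain ⟨h1, h2, h3, h4, h5⟩ := Gm.el h.toGm hv0
  refine tup_of_set (g := 1) (w := w) (d := d) (S.erase v0) (d v0) (w v0) (by rw [h.pN]; ring)
    ?_ ?_ h2 h3 h4 ?_ ?_ ?_
  · have h6 := h.sq
    rw [← Finset.add_sum_erase S _ hv0] at h6
    push_cast
    linarith
  · have h6 := h.dim
    rw [← Finset.add_sum_erase S _ hv0] at h6
    exact h6
  · have h6 : (d v0 : ℤ) - N * w v0 = (d v0 + w v0) - p * w v0 := by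
      rw [hpN]
      ring
    rw [h6]
    exact dvd_sub h5 (dvd_mul_right _ _)
  · intro v hv
    obtain ⟨hv1, hv2⟩ := Finset.mem_erase.1 hv
    obtain ⟨k1, k2, k3, k4, k5⟩ := Gm.el h.toGm hv2
    exact ⟨k1, k2, k3, k4, k5, h.gcd v hv2 v0 hv0 hv1⟩
  · intro v hv v' hv' hvv
    exact h.gcd v (Finset.mem_erase.1 hv).2 v' (Finset.mem_erase.1 hv').2 hvv

/-- The numerical conclusion with the tuple. -/
def ConcT (p m : ℕ) : Prop :=
  ∃ N A : ℕ, 3 ≤ N ∧ N ∣ p - 1 ∧ A ∣ m ∧ (p + 1) ^ 2 ≤ 2 * A ∧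
    ((p : ℤ) ∣ A - N ∨ (p : ℤ) ∣ A + N) ∧ Tup p m N A ∧
    ∀ v u c d R : ℕ, v.Prime → u.Prime → 0 < R →
      (m ∣ v ^ c * u ^ d * R → p ≤ 2 * R) ∧ (A ∣ v ^ c * u ^ d * R → p ^ 2 ≤ 4 * N * R ^ 2)

theorem Gm.finT (h : Gm p m N D S w d) (h3 : 3 ≤ N) (hN : N ∣ p - 1)
    (hD : ((p : ℤ) + 1) ^ 2 ≤ 2 * |D|) (hs : ∑ v ∈ S, w v ^ 2 ≤ N)
    (hT : ∀ v u : ℕ, v.Prime → u.Prime →
      ∃ s ∈ S, ∃ G : ℕ, G ∣ d s ∧ p < 2 * G ∧ ¬ v ∣ G ∧ ¬ u ∣ G)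
    (htup : Tup p m N D.natAbs) : ConcT p m := by
  refine ⟨N, D.natAbs, h3, hN, ?_, ?_, ?_, htup, ?_⟩
  · exact Int.natCast_dvd_natCast.1 (by rw [Int.natCast_natAbs, abs_dvd]; exact h.Dm)
  · have h1 : ((D.natAbs : ℕ) : ℤ) = |D| := Int.natCast_natAbs D
    have h2 : ((p : ℤ) + 1) ^ 2 ≤ 2 * ((D.natAbs : ℕ) : ℤ) := by rw [h1]; exact hD
    exact_mod_cast h2
  · rcases Int.natAbs_eq D with h1 | h1
    · left
      rw [← h1]
      exact h.DN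
    · right
      have h2 := h.DN
      rw [h1] at h2
      have h4 : ((D.natAbs : ℕ) : ℤ) + N = -(-((D.natAbs : ℕ) : ℤ) - N) := by ring
      rw [h4]
      exact (dvd_neg).2 h2
  · intro v u c e R hv hu hR
    obtain ⟨s, hs1, G, hG, hpG, hGv, hGu⟩ := hT v u hv hu
    constructor
    · intro hm
      have h1 := Nat.le_of_dvd hR (dvd_R hv hu ((hG.trans (h.dm s hs1)).trans hm) hGv hGu)
      omega
    · intro hA
      obtain ⟨k, hk⟩ := h.om s hs1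
      have h1 : d s ∣ D.natAbs * (w s).natAbs := by
        rw [← Int.natAbs_mul, ← hk, Int.natAbs_mul, Int.natAbs_natCast]
        exact dvd_mul_left _ _
      have h2 : G ∣ v ^ c * u ^ e * (R * (w s).natAbs) := by
        rw [← mul_assoc]
        exact (hG.trans h1).trans (mul_dvd_mul_right hA _)
      have h3 := dvd_R hv hu h2 hGv hGu
      have hw : 0 < (w s).natAbs := Int.natAbs_pos.2 (h.w0 s hs1)
      have h4 := Nat.le_of_dvd (Nat.mul_pos hR hw) h3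
      have h5 : p ≤ 2 * (R * (w s).natAbs) := by omega
      have h6 : (w s).natAbs ^ 2 ≤ N := by
        have h7 : w s ^ 2 ≤ N :=
          (Finset.single_le_sum (f := fun v => w v ^ 2) (fun i _ => sq_nonneg _) hs1).trans hs
        have h8 : (((w s).natAbs ^ 2 : ℕ) : ℤ) = w s ^ 2 := by
          push_cast
          exact sq_abs _
        exact_mod_cast h8 ▸ h7
      calc p ^ 2 ≤ (2 * (R * (w s).natAbs)) ^ 2 := Nat.pow_le_pow_left h5 2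
        _ = 4 * (w s).natAbs ^ 2 * R ^ 2 := by ring
        _ ≤ 4 * N * R ^ 2 := Nat.mul_le_mul_right _ (Nat.mul_le_mul_left 4 h6)

/-- **Theorem.**  The numbers and the tuple, `g ≥ 2`. -/
theorem num2T (h : Gm2 p m N g D S w d yW dW) (hW : (dW : ℤ) ∣ D * yW) : ConcT p m :=
  Gm.finT h.toGm h.N3 ⟨g, by have := h.pN; omega⟩ h.big h.sum_le h.pairEx (Gm2.tup h hW)

/-- **Theorem.**  The numbers and the tuple, `g = 1`. -/
theorem num1T (h : Gm1 p m N D S w d) : ConcT p m :=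
  Gm.finT h.toGm h.N3 ⟨1, by have := h.pN; omega⟩ h.big h.sq.le h.pairEx (Gm1.tup h)

end Pool.Agent.Helper89.PQ0
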