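import Pool.Agent.Helper4.PQ0.Once
import Pool.Agent.Helper89.PQ0.Tup

/-! # MP_2b6189_al: a prime which divides `n` exactly once, any parity, with the tuple

As `Pool.Agent.Helper4.PQ0.primeOnce0`, with the conclusion `ConcT`. -/

set_option autoImplicit false

namespace Pool.Agent.Helper89.PQ0

open Matrix ComplexConjugate Pool.Agent.Helper94.YF Pool.Agent.Helper94.YG
open Pool.Agent.Helper89.OS hiding PD Cx Blk B0 Orb StXA StXB StXC StXE StCGR StISO StBLK StAMG StHEC StSTL StMZZ StDRE StTSU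
open Pool.Agent.Helper89.OC hiding Kp Ks gX OB Lk StORB StTS2 StLKD StTAN
open Pool.Agent.Helper4.PQ0

/-- **Theorem.**  Ghost primes, any parity, with the tuple. -/
theorem primeOnceT (I : Type) [Fintype I] [DecidableEq I] (Z : CentreData I) (p m : ℕ)
    (hp : p.Prime) (hn : Z.n = p * m) (hpm : ¬ p ∣ m) (hT : ¬ ∃ D : I → Prop, TanSet Z D) :
    ¬ p ^ 2 ∣ Z.L ∧ ConcT p m := by
  classical
  have hp2 : p ≠ 2 := by
    rintro rfl
    exact hT (Pool.Agent.Helper94.AL.even_tan I Z m hn (Nat.odd_iff.2 (by omega)))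
  obtain ⟨a, b, X, hI, hL2, ho, hst, hd, hmX, -, hth, ht, hs, hchi, hN, hz⟩ :=
    toPD' I Z p m hp hp2 hn hpm
  obtain ⟨Q, hQ⟩ := Helper66.OS.hPID hRAT' p hp
  have hx := Helper47.PQ0.hX0 hRAT' ISO.hISO I p a X Q hQ
  have hB : Blk X Q := BLK.hBLK hRAT' CGR.hCGR ISO.hISO I p a X Q hQ hx
  have ha := a_one Helper7.PQ0.hA2S Helper16.PQ0.hA2U Helper89.PQ0.hA2T Helper79.PQ0.hA2C Z b X Q
    hT hn hI ho hd hth ht hs hz hx hB
  subst ha
  haveI : NeZero p := ⟨hp.ne_zero⟩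
  refine ⟨fun h => by have := hL2 h; omega, ?_⟩
  have hL : Lk Z b X := ⟨by rw [hn, hmX], hI, ho, hst, hd, hth, ht, hs, hchi, hN, fun i => by
    rw [hmX]; exact hz i⟩
  have hKs : ∀ k, k ∈ Ks X ↔ X.y k ≠ 0 ∧ X.t k = 1 ∧ k ≠ X.o := fun k => by simp [Ks]
  have hd1 : ∀ k ∈ Ks X, X.d k ≠ 1 := by
    intro k hk
    exact d_ne_one Z b X hT ho hd hth (by
      rw [hKs] at hk
      simpa [Kp] using hk)
  have hdp : ∀ k ∈ Ks X, ¬ IsPrimePow (X.d k) := by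
    intro k hk h1
    obtain ⟨h2, h3, h4⟩ := (hKs k).1 hk
    have hthk : Z.th k = 1 := by
      rw [← hth]
      exact X.th_of k h2 h3
    rw [hd] at h1
    exact hT (Helper42.PQS.hCBE Helper55.PQS.hTNS Helper36.PQS.hPPW I Z k h1 hthk
      fun δ h5 h6 => inv_cen Z X Q hB ho hst hd hchi k h2 δ h5 h6)
  obtain ⟨C, hCd, hCy, hCK, hCO, hCg⟩ := Helper7.PQ0.hCDO MZZ.hMZZ DRE.hDRE TSU.hTSU STL.hSTL
    HEC.hHEC ORB.hORB hRAT' I p X Q hB
  rcases END1 C with ⟨k, hk, h1⟩ | ⟨k, hk, h1⟩ | ⟨k, hk, h1⟩ | ⟨k, h4⟩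
  · rw [hCK] at hk
    rw [hCd] at h1
    exact absurd h1 (hd1 k hk)
  · rw [hCK] at hk
    rw [hCd, hCy, hCg] at h1
    exact absurd (TAN.hTAN LKD.hLKD Helper36.OC.hGLA Helper1.OC.hGLB Helper38.OC.hGLC TS2.hTS2
      ORB.hORB I Z p b X Q hL hB k hk h1) hT
  · rw [hCK] at hk
    rw [hCd] at h1
    exact absurd (by rw [h1]; exact Nat.prime_two.isPrimePow) (hdp k hk)
  · have h5 : ConcT p X.m := by
      obtain ⟨N, S, w, h6 | ⟨g, W, hW, h6⟩⟩ :=
        Pool.Agent.Helper94.BRE.main0 Z p b X Q hL hB hT C hCd hCy hCK hCO hCg k h4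
      · exact num1T h6
      · have h7 := C.dvd W hW
        rw [hCd, hCy] at h7
        exact num2T h6 h7
    rw [hmX] at h5
    exact h5

end Pool.Agent.Helper89.PQ0
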